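import Pool.Agent.Lib.MP_1a91b9_nuX.DY.Main
import Pool.Agent.Lib.MP_1a91b9_nuW.DS.Tower
import Pool.Agent.Lib.MP_1a91b9_nuW.W.Na
import Pool.Agent.Lib.MP_1a91b9_nuW.DY.Tc

/-!
# The top: `VTw = 0` implies that the group of points is finite and that the `ℓ`-part of the
Tate-Shafarevich group is trivial
-/

set_option autoImplicit false
set_option linter.unusedSectionVars false

namespace Pool.Agent.Lib.MP_1a91b9_nuW.DY

open NumberField IsDedekindDomain WeierstrassCurve Pool.Agent.Lib.MP_1a91b9_nuT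
open Pool.Agent.Lib.MP_1a91b9_nuX Pool.Agent.Lib.MP_1a91b9_nuX.DB Pool.Agent.Lib.MP_1a91b9_nuX.DX
open Pool.Agent.Lib.MP_1a91b9_nuX.DS Pool.Agent.Lib.MP_1a91b9_nuX.DY
open Pool.Agent.Lib.MP_1a91b9_nuW.W Pool.Agent.Lib.MP_1a91b9_nuW.DS
open Pool.Agent.Lib.MP_1a91b9_nuX.DH (TC LocSol smF)

variable [CD]

universe u

variable [HC]

section
variable {F N N₂ L : Type u} [Field F] [NumberField F] [Algebra K F] [Field N] [NumberField N]
  [Algebra K N] [Field N₂] [NumberField N₂] [Algebra K N₂] [Field L] [NumberField L] [Algebra K L]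
  [Algebra F N] [Algebra F N₂] [Algebra F L] [Algebra N L] [Algebra N₂ L]
  [IsScalarTower K F N] [IsScalarTower K F N₂] [IsScalarTower K F L] [IsScalarTower K N L]
  [IsScalarTower K N₂ L] [IsScalarTower F N L] [IsScalarTower F N₂ L]
  [DecidableEq F] [DecidableEq N] [DecidableEq N₂] [DecidableEq L]
  [IsGalois F N] [IsGalois F N₂] [IsGalois F L]
  {ϖ : 𝓞 K} {ℓ q : ℕ} {P₀ : Pt N} {P₂ : Pt N₂} {ζ : L} {κ : Gal(L/F) → Pt L}
  (D : TC ϖ ℓ q P₀ P₂ ζ κ)
include D

/-- the Kummer class of a locally trivial cocycle is in the Selmer group -/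
theorem tc_vw (hcop : IsCoprime ϖ (cj ϖ)) (A : AW ϖ ℓ F)
    (hloc : ∀ W : HeightOneSpectrum (𝓞 L), LocSol κ W)
    {φ : 𝓞 K →+ ZMod ℓ} (hφ : φ ≠ 0) {y : Nˣ} {α : L} (hK : DH.KC F ϖ ℓ P₀ P₂ ζ κ φ y α) :
    VW F ϖ ℓ P₀ y := by
  have iG : IsGalois N L := IsGalois.tower_top_of_isGalois F N L
  have h := D.pd
  have hod : ∀ w : HeightOneSpectrum (𝓞 N), (ℓ : ℤ) ∣ MP_1a91b9_nuT.DB.od w (y : N) := by
    intro w
    by_cases hw : w.valuation N (bD N) = 1 ∧ w.valuation N (algebraMap K N (cj ϖ : K)) = 1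
    · obtain ⟨W, rfl⟩ := CF.exists_over (k := N) (N := L) w
      have h3' : W.valuation L (bD L) = 1 := by
        have e := (val_map_eq W (bD N)).2 hw.1
        rwa [bD, map_intCast] at e
      have hc' : W.valuation L (algebraMap K L (cj ϖ : K)) = 1 := by
        have e := (val_map_eq W (algebraMap K N (cj ϖ : K))).2 hw.2
        rwa [← IsScalarTower.algebraMap_apply K N L] at e
      exact dvd_od hK.pow W (D.unram W h3' hc' (hloc W))
    · rcases not_and_or.1 hw with h1 | h1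
      · obtain ⟨σ, hσ1, hσ2⟩ := A.dt N P₀ D.full w
          (lt_of_le_of_ne (v_int_le (w.valuation N) _) h1)
        exact Iso.od_fix h D.full hK.iso hσ2 hσ1
      · have hlt : w.valuation N (algebraMap K N (cj ϖ : K)) < 1 :=
          lt_of_le_of_ne (v_alg_le (w.valuation N) _) h1
        exact tc_od' D hcop hloc hφ hK w hlt
  have hn : ¬ ϖ ∣ cj ϖ := fun e => h.prime.not_isUnit (hcop.isUnit_of_dvd' dvd_rfl e)
  refine ⟨hod, hK.iso, fun w hw _ => ?_, fun w hw hv => ?_⟩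
  · have h1 := pd_val_coprime h hw hn
    have h2 := h.bad_pi hw
    obtain ⟨W, rfl⟩ := CF.exists_over (k := N) (N := L) w
    have h3' : W.valuation L (bD L) = 1 := by
      have e := (val_map_eq W (bD N)).2 h2
      rwa [bD, map_intCast] at e
    have hc' : W.valuation L (algebraMap K L (cj ϖ : K)) = 1 := by
      have e := (val_map_eq W (algebraMap K N (cj ϖ : K))).2 h1
      rwa [← IsScalarTower.algebraMap_apply K N L] at e
    have hw' : W.valuation L (algebraMap K L (ϖ : K)) < 1 := by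
      have e := (val_map_lt W (algebraMap K N (ϖ : K))).2 hw
      rwa [← IsScalarTower.algebraMap_apply K N L] at e
    exact wloc_unram h y.ne_zero hK.pow W (D.unram W h3' hc' (hloc W)) hw'
  · have h1 := pd_val_coprime h hw hn
    have h2 := h.bad_pi hw
    have hvl : (w.under (𝓞 F)).valuation F (ℓ : F) < 1 := by
      rw [← val_map_lt, map_natCast, h.val_ell hw]
      exact hw
    have hna := na_N h A.ep D.full w hw (A.na _ hvl hv)
    obtain ⟨W, rfl⟩ := CF.exists_over (k := N) (N := L) w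
    have h3' : W.valuation L (bD L) = 1 := by
      have e := (val_map_eq W (bD N)).2 h2
      rwa [bD, map_intCast] at e
    have hc' : W.valuation L (algebraMap K L (cj ϖ : K)) = 1 := by
      have e := (val_map_eq W (algebraMap K N (cj ϖ : K))).2 h1
      rwa [← IsScalarTower.algebraMap_apply K N L] at e
    exact tc_pl D W h3' hc' hna (hloc W) hK

end

open scoped Classical

section
variable {F N N₂ L : Type u} [Field F] [NumberField F] [Algebra K F] [Field N] [NumberField N]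
  [Algebra K N] [Field N₂] [NumberField N₂] [Algebra K N₂] [Field L] [NumberField L] [Algebra K L]
  [Algebra F N] [Algebra F N₂] [Algebra F L] [Algebra N L] [Algebra N₂ L]
  [IsScalarTower K F N] [IsScalarTower K F N₂] [IsScalarTower K F L] [IsScalarTower K N L]
  [IsScalarTower K N₂ L] [IsScalarTower F N L] [IsScalarTower F N₂ L]
  [IsGalois F N] [IsGalois F N₂] [IsGalois F L]
  {ϖ : 𝓞 K} {ℓ q : ℕ} {P₀ : Pt N} {P₂ : Pt N₂} {ζ : L} {κ : Gal(L/F) → Pt L}
  (D : TC ϖ ℓ q P₀ P₂ ζ κ)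
include D

/-- a locally trivial cocycle with values in the points killed by `cj ϖ` is a coboundary -/
theorem tc_cobW (A : AW ϖ ℓ F) (hloc : ∀ W : HeightOneSpectrum (𝓞 L), LocSol κ W) :
    ∃ S : Pt L, ∀ g : Gal(L/F), κ g = ga g S - S := by
  by_cases hcop : IsCoprime ϖ (cj ϖ)
  · obtain ⟨φ, hφ, hφ0⟩ := exists_phi D.pd
    obtain ⟨y, α, hK⟩ := D.exists_KC φ hφ0
    have hy : ∃ z : Nˣ, y = z ^ ℓ := A.vt N P₀ D.full y (tc_vw D hcop A hloc hφ hK)
    exact D.cob_of_coprime (D.card_coprime (fun g h0 h2 => D.kap_zero hφ hK hy g h0 h2))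
  · exact DY.tc_cob D (vt_of_vtw D.pd (A.un hcop) A.vt) (A.un hcop) A.dt hloc

end

section
variable {F N N₂ L : Type u} [Field F] [NumberField F] [Algebra K F] [Field N] [NumberField N]
  [Algebra K N] [Field N₂] [NumberField N₂] [Algebra K N₂] [Field L] [NumberField L] [Algebra K L]
  [Algebra F N] [Algebra F N₂] [Algebra F L] [Algebra N L] [Algebra N₂ L]
  [IsScalarTower K F N] [IsScalarTower K F N₂] [IsScalarTower K F L] [IsScalarTower K N L]
  [IsScalarTower K N₂ L] [IsScalarTower F N L] [IsScalarTower F N₂ L]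
  [IsGalois F N] [IsGalois F N₂] [IsGalois F L] [iL : DecidableEq L]

  {ϖ : 𝓞 K} {ℓ q : ℕ} {P₀ : Pt N} {P₂ : Pt N₂} {ζ : L} {κ : Gal(L/F) → Pt L}

private theorem tc_cobL (D : TC ϖ ℓ q P₀ P₂ ζ κ) (A : AW ϖ ℓ F) (hloc : ∀ W : HeightOneSpectrum (𝓞 L), LocSol κ W) :
    ∃ S : Pt L, ∀ g : Gal(L/F), κ g = ga g S - S := by
  have e : iL = fun a b => Classical.propDecidable (a = b) := Subsingleton.elim _ _
  subst e
  exact tc_cobW D A hloc

end

section
variable {ϖ : 𝓞 K} {ℓ q : ℕ} (h : PD ϖ ℓ q) {F : Type u} [Field F] [NumberField F] [Algebra K F]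
include h

/-- the locally trivial cocycles killed by `cj ϖ` are coboundaries -/
theorem sel_topW (A : AW ϖ ℓ F)
    (C : S9.Gal F → S9.Pts (E F) (AlgebraicClosure F)) (hC : C ∈ S9.shaCoc (E F))
    (hC2 : ∀ σ, smF F (AlgebraicClosure F) (cj ϖ) (C σ) = 0) : C ∈ S9.cob (E F) := by
  obtain ⟨N, iN1, iN2, iN3, iN4, iN5, iN6, iN7, P₀, hP₀⟩ := exists_full' h F A.ep
  obtain ⟨N₂, iM1, iM2, iM3, iM4, iM5, iM6, iM7, P₂, hP₂⟩ := exists_full' (pd_cj h) F A.ep
  have e1 : iN6 = fun a b => Classical.propDecidable (a = b) := Subsingleton.elim _ _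
  have e2 : iM6 = fun a b => Classical.propDecidable (a = b) := Subsingleton.elim _ _
  subst e1
  subst e2
  let C' : S9.Gal F → Pt (AlgebraicClosure F) := fun σ => DH.tr F (AlgebraicClosure F) (C σ)
  have hcoc : C ∈ S9.coc (E F) := hC.1.1
  have hC0' : IsLocallyConstant C' := hcoc.1.comp _
  have hC1' : ∀ σ τ : S9.Gal F, C' (σ * τ) = C' σ + ga σ (C' τ) := by
    intro σ τ
    show DH.tr F _ (C (σ * τ)) = DH.tr F _ (C σ) + ga σ (DH.tr F _ (C τ))
    rw [hcoc.2 σ τ, map_add]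
    congr 1
    exact DH.tr_map _ _
  have hC2' : ∀ σ, sm (AlgebraicClosure F) (cj ϖ) (C' σ) = 0 := by
    intro σ
    show sm _ (cj ϖ) (DH.tr F _ (C σ)) = 0
    rw [← DH.tr_smF, hC2, map_zero]
  obtain ⟨L, iL1, iL2, iL3, iL4, iL5, iL6, iL7, iL8, ζ, κ, D, hL, hκ⟩ :=
    DH.exists_TC h hP₀ hP₂ C' hC0' hC1' hC2'
  have hCv : ∀ v : HeightOneSpectrum (𝓞 F), C ∈ S9.trivOver (E F) (v.adicCompletion F) := by
    intro v
    exact AddSubgroup.mem_iInf.1 hC.1.2 v
  have hL' : ∀ τ : S9.Gal F, (∀ x ∈ L, τ x = x) → C τ = 0 := by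
    intro τ hτ
    have := hL τ hτ
    exact (DH.tr F (AlgebraicClosure F)).map_eq_zero_iff.1 this
  have hloc : ∀ W : HeightOneSpectrum (𝓞 L), LocSol κ W :=
    fun W => DH.locSol_of_triv C L hCv hL' κ hκ W
  obtain ⟨S, hS⟩ := tc_cobL D A hloc
  refine ⟨(DH.tr F (AlgebraicClosure F)).symm (pm (L.val.restrictScalars K) S), fun τ => ?_⟩
  apply (DH.tr F (AlgebraicClosure F)).injective
  rw [map_sub, DH.tr_map, AddEquiv.apply_symm_apply]
  have h1 := hκ τ
  rw [hS, map_sub] at h1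
  have h2 : pm (L.val.restrictScalars K) (ga (τ.restrictNormal L) S) =
      pm ((τ : AlgebraicClosure F →ₐ[F] AlgebraicClosure F).restrictScalars K)
        (pm (L.val.restrictScalars K) S) := by
    rcases cases_pt S with rfl | ⟨x, y, hxy, rfl⟩
    · simp only [map_zero]
    · obtain ⟨a1, b1⟩ := pm_mk (((τ.restrictNormal L : Gal(L/F)) : L →ₐ[F] L).restrictScalars K)
        x y hxy
      obtain ⟨a2, b2⟩ := pm_mk (L.val.restrictScalars K) x y hxy
      rw [ga, b1, b2]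
      obtain ⟨a3, b3⟩ := pm_mk (L.val.restrictScalars K) _ _ a1
      obtain ⟨a4, b4⟩ := pm_mk
        ((τ : AlgebraicClosure F →ₐ[F] AlgebraicClosure F).restrictScalars K) _ _ a2
      rw [b3, b4, mk_inj]
      exact ⟨AlgEquiv.restrictNormal_commutes τ L x, AlgEquiv.restrictNormal_commutes τ L y⟩
  rw [h2] at h1
  exact h1.symm

variable (A : AW ϖ ℓ F) (A' : AW (cj ϖ) ℓ F)
include A A'

/-- the locally trivial cocycles which are killed by `ℓ` modulo coboundaries are coboundaries -/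
theorem ell_classW (C : S9.Gal F → S9.Pts (E F) (AlgebraicClosure F)) (hC : C ∈ S9.shaCoc (E F))
    (hl : ℓ • C ∈ S9.cob (E F)) : C ∈ S9.cob (E F) := by
  have hq : (fun σ => smF F (AlgebraicClosure F) (q : 𝓞 K) (C σ)) ∈ S9.cob (E F) := by
    have h1 : (fun σ => smF F (AlgebraicClosure F) (q : 𝓞 K) (C σ)) = q • C := by
      funext σ
      rw [DH.smF_nat]
      rfl
    rw [h1]
    rcases h.alt with e | e
    · rw [e]
      exact hl
    · rw [e, pow_two, mul_nsmul]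
      exact AddSubgroup.nsmul_mem _ hl ℓ
  have hcj := pd_cj h
  have hA : ∀ C ∈ S9.shaCoc (E F),
      (∀ σ, smF F (AlgebraicClosure F) (cj ϖ) (C σ) = 0) → C ∈ S9.cob (E F) :=
    fun C hC hC2 => sel_topW h A C hC hC2
  have hB : ∀ C ∈ S9.shaCoc (E F),
      (∀ σ, smF F (AlgebraicClosure F) ϖ (C σ) = 0) → C ∈ S9.cob (E F) := by
    intro C hC hC2
    refine sel_topW hcj A' C hC (fun σ => ?_)
    rw [cj_cj]
    exact hC2 σ
  refine DH.dev h.prime.ne_zero hB hC ?_
  refine DH.dev hcj.prime.ne_zero hA (DH.smF_sha ϖ hC) ?_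
  have h2 : (fun σ => smF F (AlgebraicClosure F) (cj ϖ) (smF F (AlgebraicClosure F) ϖ (C σ))) =
      fun σ => smF F (AlgebraicClosure F) (q : 𝓞 K) (C σ) := by
    funext σ
    rw [← DH.smF_mul, mul_comm, pd_mul_cj h]
  rw [h2]
  exact hq

/-- the classes killed by `ℓ` are trivial -/
theorem sha_zeroW (x : S9.Sha (E F)) (hx : ℓ • x = 0) : x = 0 := by
  have key : ∀ y : S9.shaCoc (E F) ⧸ (S9.cob (E F)).addSubgroupOf (S9.shaCoc (E F)),
      ℓ • y = 0 → y = 0 := by
    intro y hy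
    obtain ⟨⟨C, hC⟩, rfl⟩ := QuotientAddGroup.mk_surjective y
    rw [← QuotientAddGroup.mk_nsmul, QuotientAddGroup.eq_zero_iff,
      AddSubgroup.mem_addSubgroupOf] at hy
    rw [QuotientAddGroup.eq_zero_iff, AddSubgroup.mem_addSubgroupOf]
    exact ell_classW h A A' C hC hy
  exact key x hx

theorem sha_pow_zeroW (n : ℕ) (x : S9.Sha (E F)) (hx : ℓ ^ n • x = 0) : x = 0 := by
  induction n generalizing x with
  | zero => simpa using hx
  | succ n ih =>
    refine sha_zeroW h A A' x (ih _ ?_)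
    rw [← mul_nsmul', ← pow_succ]
    exact hx

/-- the `ℓ`-primary part of the Tate-Shafarevich group is trivial -/
theorem sha_primaryW [Fact ℓ.Prime] :
    Subsingleton (AddCommGroup.primaryComponent (S9.Sha (E F)) ℓ) := by
  have h1 : ∀ x : AddCommGroup.primaryComponent (S9.Sha (E F)) ℓ, x = 0 := by
    rintro ⟨x, n, hn⟩
    exact Subtype.ext (sha_pow_zeroW h A A' n x hn)
  exact ⟨fun x y => (h1 x).trans (h1 y).symm⟩

end

section
variable {F N N₂ L : Type u} [Field F] [NumberField F] [Algebra K F] [Field N] [NumberField N]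
  [Algebra K N] [Field N₂] [NumberField N₂] [Algebra K N₂] [Field L] [NumberField L] [Algebra K L]
  [Algebra F N] [Algebra F N₂] [Algebra F L] [Algebra N L] [Algebra N₂ L]
  [IsScalarTower K F N] [IsScalarTower K F N₂] [IsScalarTower K F L] [IsScalarTower K N L]
  [IsScalarTower K N₂ L] [IsScalarTower F N L] [IsScalarTower F N₂ L]
  [DecidableEq F] [DecidableEq N] [DecidableEq N₂] [DecidableEq L]
  [IsGalois F N] [IsGalois F N₂] [IsGalois F L]
  {ϖ : 𝓞 K} {ℓ q : ℕ} {P : Pt F} {P₀ : Pt N} {P₂ : Pt N₂} {ζ : L} {Q : Pt L}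

/-- the cocycle of a point -/
theorem td_tc (D : TD ϖ ℓ q P P₀ P₂ ζ Q) : TC ϖ ℓ q P₀ P₂ ζ (fun g : Gal(L/F) => ga g Q - Q) where
  pd := D.pd
  full := D.full
  full₂ := D.full₂
  zeta := D.zeta
  coc g h := by
    rw [ga_mul, map_sub]
    abel
  tor g := by
    rw [map_sub, ← ga_sm, D.div, ga_up_self, sub_self]
  gen σ h0 h2 hk hz := D.gen σ h0 h2 (sub_eq_zero.1 hk) hz

/-- the cocycle of a point is locally trivial -/
theorem td_loc (D : TD ϖ ℓ q P P₀ P₂ ζ Q) (W : HeightOneSpectrum (𝓞 L)) :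
    LocSol (fun g : Gal(L/F) => ga g Q - Q) W := by
  refine ⟨L, inferInstance, inferInstance, inferInstance, inferInstance, inferInstance,
    W.valuation L, Q, fun x => rfl, fun m n => ⟨m, ?_⟩, fun g hg => ?_⟩
  · rw [Algebra.algebraMap_self, RingHom.id_apply, sub_self, map_zero]
    exact zero_le
  · refine ⟨(g : L →ₐ[F] L).restrictScalars K, fun m => ?_, fun x => rfl, ?_⟩
    · have h1 := gpl_val g W m
      rw [hg] at h1
      exact h1
    · have h2 : ∀ R : Pt L, pm (IsScalarTower.toAlgHom K L L) R = R := by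
        intro R
        rcases cases_pt R with rfl | ⟨x, y, hxy, rfl⟩
        · rw [map_zero]
        · obtain ⟨h1, e1⟩ := pm_mk (IsScalarTower.toAlgHom K L L) x y hxy
          rw [e1, mk_inj]
          exact ⟨rfl, rfl⟩
      rw [h2]

end

section
variable {ϖ : 𝓞 K} {ℓ q : ℕ} (h : PD ϖ ℓ q) {F : Type u} [Field F] [NumberField F] [Algebra K F]
include h

/-- the points are divisible by `cj ϖ` -/
theorem exists_divisorW (A : AW ϖ ℓ F) (P : Pt F) : ∃ P' : Pt F, sm F (cj ϖ) P' = P := by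
  by_contra hno
  obtain ⟨N, iN1, iN2, iN3, iN4, iN5, iN6, iN7, P₀, hP₀⟩ := exists_full' h F A.ep
  obtain ⟨N₂, iM1, iM2, iM3, iM4, iM5, iM6, iM7, P₂, hP₂⟩ := exists_full' (pd_cj h) F A.ep
  obtain ⟨L, iL1, iL2, iL3, iL4, iL5, iL6, iL7, iL8, iL9, iL10, iL11, iL12, iL13, ζ, Q, D⟩ :=
    exists_TD h hP₀ hP₂ P
  by_cases hcop : IsCoprime ϖ (cj ϖ)
  · obtain ⟨φ, hφ, hφ0⟩ := exists_phi h
    obtain ⟨y, α, hK⟩ := D.exists_KC φ hφ0
    have hy : ¬ ∃ z : Nˣ, y = z ^ ℓ := KC.not_pow D hφ hK hno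
    have hK' : DH.KC F ϖ ℓ P₀ P₂ ζ (fun g : Gal(L/F) => ga g Q - Q) φ y α :=
      ⟨hK.pow, hK.ker, fun σ x hx => hK.act σ x hx, hK.iso⟩
    exact hy (A.vt N P₀ hP₀ y (tc_vw (td_tc D) hcop A (td_loc D) hφ hK'))
  · exact hno (exists_divisor' h (vt_of_vtw h (A.un hcop) A.vt) (A.un hcop) A.dt P)

theorem finite_W (A : AW ϖ ℓ F) : Finite (Pt F) :=
  finite_of_div h (exists_divisorW h A)

end

end Pool.Agent.Lib.MP_1a91b9_nuW.DY
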