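import Pool.Agent.Lib.MP_1a91b9_nuX.PL.Odd
import Pool.Agent.Lib.MP_1a91b9_nuT3.S9.Defs
import Pool.Agent.Lib.MP_1a91b9_nuW.DY.Main

/-!
# G7: the algebraic side of the tower

`TowerW P ℓ`: the towers over the fields with property `P`: Galois extensions of degree `ℓ`, in which
only places with `ψ v - 1` prime to `ℓ` ramify, and which ramify above `ℓ` only if `ℓ` splits in `K`.
`aw_tower`: the package `AW` over the fields of the tower. `top_W`: what it implies.
-/

set_option autoImplicit false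
set_option linter.unusedSectionVars false

namespace Pool.Agent.Lib.MP_1a91b9_nuW.DY

open NumberField IsDedekindDomain WeierstrassCurve Pool.Agent.Lib.MP_1a91b9_nuT
open Pool.Agent.Lib.MP_1a91b9_nuX Pool.Agent.Lib.MP_1a91b9_nuX.DB Pool.Agent.Lib.MP_1a91b9_nuX.DX
open Pool.Agent.Lib.MP_1a91b9_nuX.DS Pool.Agent.Lib.MP_1a91b9_nuX.DY
open Pool.Agent.Lib.MP_1a91b9_nuW.W Pool.Agent.Lib.MP_1a91b9_nuW.DS
open Pool.Agent.Lib.MP_1a91b9_nuT3.S9 (ShaP)
open scoped Classical

variable [CD]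

universe u

/-- `ℓ` splits in `K` -/
def Splt (ℓ : ℕ) : Prop := ∃ p : 𝓞 K, p * cj p = (ℓ : 𝓞 K) ∧ IsCoprime p (cj p)

/-- for a split prime number `ϖ` and its conjugate are coprime -/
theorem cop_of_splt {ϖ : 𝓞 K} {ℓ q : ℕ} (h : PD ϖ ℓ q) (hs : Splt ℓ) : IsCoprime ϖ (cj ϖ) := by
  rcases pd_cases h with ⟨-, hc⟩ | ⟨hq, hi⟩
  · exact hc
  · exfalso
    obtain ⟨p, hp, hcop⟩ := hs
    have h1 : ϖ ∣ p * cj p := by
      rw [hp]
      exact h.dvd
    have h2 : ϖ ∣ p := by
      rcases h.prime.dvd_or_dvd h1 with h2 | h2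
      · exact h2
      · rw [← hi] at h2
        exact cj_dvd_iff.1 h2
    have h3 : ϖ ∣ cj p := by
      rw [← hi]
      exact cj_dvd_iff.2 h2
    exact h.prime.not_isUnit (hcop.isUnit_of_dvd' h2 h3)

variable [HC]

/-- The towers over the fields with property `P`: Galois extensions of degree `ℓ`, in which only
places with `ψ v - 1` prime to `ℓ` ramify, and which ramify above `ℓ` only if `ℓ` splits in `K`. -/
inductive TowerW (P : ∀ (F : Type u) [Field F] [NumberField F] [Algebra K F], Prop)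
    (ℓ : ℕ) : ∀ (F : Type u) [Field F] [NumberField F] [Algebra K F], Prop
  | base (F : Type u) [Field F] [NumberField F] [Algebra K F] (h : P F) : TowerW P ℓ F
  | step (F F' : Type u) [Field F] [NumberField F] [Algebra K F] [Field F'] [NumberField F']
      [Algebra K F'] [Algebra F F'] [IsScalarTower K F F'] (hG : IsGalois F F')
      (hr : Module.finrank F F' = ℓ)
      (hu : ∀ v : HeightOneSpectrum (𝓞 F), (ℓ : 𝓞 F) ∈ v.asIdeal → MP_1a91b9_nuG.Ram F' v →
        Splt ℓ)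
      (ha : ∀ v : HeightOneSpectrum (𝓞 F), MP_1a91b9_nuG.Ram F' v →
        IsCoprime (psi F v.asIdeal - 1) (ℓ : 𝓞 K))
      (h : TowerW P ℓ F) : TowerW P ℓ F'

/-- the package over the fields of the tower -/
theorem aw_tower {P : ∀ (F : Type u) [Field F] [NumberField F] [Algebra K F], Prop}
    {ϖ : 𝓞 K} {ℓ q : ℕ} (h : PD ϖ ℓ q)
    (hP : ∀ (F : Type u) [Field F] [NumberField F] [Algebra K F], P F → AW ϖ ℓ F)
    (F : Type u) [Field F] [NumberField F] [Algebra K F] (hF : TowerW P ℓ F) : AW ϖ ℓ F := by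
  induction hF with
  | base F hb => exact hP F hb
  | step F F' hG hr hu ha hF ih =>
    refine ih.step h hr (fun hn v hv => ?_) (fun v hv => ?_)
    · by_contra hne
      refine hn (cop_of_splt h (hu (v.under (𝓞 F)) ?_
        ⟨v, (MP_1a91b9_nuG.le_sq_iff rfl).mpr hne⟩))
      have h1 : (v.under (𝓞 F)).valuation F (ℓ : F) < 1 := by
        rw [← val_map_lt, map_natCast]
        exact hv
      have e : algebraMap (𝓞 F) F (ℓ : 𝓞 F) = (ℓ : F) := map_natCast (algebraMap (𝓞 F) F) ℓ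
      exact ((v.under (𝓞 F)).valuation_lt_one_iff_mem (K := F) (ℓ : 𝓞 F)).1 (by
        change (v.under (𝓞 F)).valuation F (algebraMap (𝓞 F) F (ℓ : 𝓞 F)) < 1
        rw [e]
        exact h1)
    · exact ha (v.under (𝓞 F)) ⟨v, (MP_1a91b9_nuG.le_sq_iff rfl).mpr hv⟩

/-- **The top**: the group of points is finite of order prime to `ℓ` and the `ℓ`-part of the
Tate-Shafarevich group is trivial. -/
theorem top_W {ϖ : 𝓞 K} {ℓ q : ℕ} [Fact ℓ.Prime] (h : PD ϖ ℓ q) {F : Type u} [Field F]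
    [NumberField F] [Algebra K F] (A : AW ϖ ℓ F) (A' : AW (cj ϖ) ℓ F) :
    Finite (E F).toAffine.Point ∧ (Nat.card (E F).toAffine.Point).Coprime ℓ ∧
      Subsingleton (ShaP ℓ (E F)) := by
  have hfin : Finite (Pt F) := finite_W h A
  have hd1 := exists_divisorW h A
  have hd2 := exists_divisorW (pd_cj h) A'
  rw [cj_cj] at hd2
  have hcop := PL.coprime_card h hfin hd1 hd2
  obtain ⟨hf, hc⟩ := PL.pt_card F hfin
  refine ⟨hf, ?_, sha_primaryW h A A'⟩
  rw [hc]
  exact hcop

end Pool.Agent.Lib.MP_1a91b9_nuW.DY
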